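import Pool.Agent.H987.Z.StB
import Pool.Graph.R_pool_sql_team_seeded_1acbe0a2.Y662.TR.Acs
import Pool.Graph.R_pool_sql_team_seeded_1acbe0a2.Y662.TR.Step
import Pool.Graph.R_pool_sql_team_seeded_1acbe0a2.Y662.TR.Der
import Pool.Graph.R_seed8.TH369.AN.RES

/-! B5: absolutely continuous spectrum from moment bounds (adaptation of `Y662/FP/Acg.lean`). -/

set_option autoImplicit false
set_option linter.unusedSectionVars false

open scoped BigOperators InnerProductSpace Topology ENNReal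
open Filter MeasureTheory

namespace Pool.Agent.H230.Z987

open Pool.Agent.Y662.TR (LL Cf Mw dv ev ev_apply hu hu_nonneg hu_meas hu_im hu_comm rz_two qk_po
  zk_eq all_vec fatou_om norm_dv inner_dv Mw_sa Mw_norm Mw_tendsto ll_coord)
open Pool.Agent.TH369.AN (Rz rz_eq rz_uniq rz_norm)
open Pool.Agent.TH369.MU (SpM ep zk qk Fk qk_sq poisson_ae)
open Pool.Agent.TH369.MU.PO2 (ep_pos ep_tendsto)
open Pool.Agent.TH794.LL2 (Po Po_int Po_im)
open Pool.Agent.H987.Z (HV Gr)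

theorem zk_im (E : ℝ) (k : ℕ) : (zk E k).im = ep k := by
  rw [zk_eq]
  simp

theorem zk_re (E : ℝ) (k : ℕ) : (zk E k).re = E := by
  rw [zk_eq]
  simp

theorem zk_im_pos (E : ℝ) (k : ℕ) : 0 < (zk E k).im := by
  rw [zk_im]
  exact ep_pos k

theorem ep_le_one (k : ℕ) : ep k ≤ 1 := by
  unfold ep
  rw [div_le_one (by positivity)]
  linarith [(Nat.cast_nonneg k : (0 : ℝ) ≤ k)]

theorem zk_im_le (E : ℝ) (k : ℕ) : (zk E k).im ≤ 1 := by
  rw [zk_im]
  exact ep_le_one k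

theorem zk_sub (E E' : ℝ) (k : ℕ) : ‖zk E k - zk E' k‖ = |E - E'| := by
  have : zk E k - zk E' k = ((E - E' : ℝ) : ℂ) := by
    rw [zk_eq, zk_eq]
    push_cast
    ring
  rw [this, Complex.norm_real, Real.norm_eq_abs]

theorem zk_cont (k : ℕ) : Continuous fun E : ℝ => zk E k := by
  simp only [zk_eq]
  fun_prop

section

variable {ι : Type}

theorem HV_sa (T : LL ι →L[ℂ] LL ι) (hT : IsSelfAdjoint T) (V : ι → ℝ) :
    IsSelfAdjoint (HV T V) := hT.add (Mw_sa 1 V)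

theorem HV_norm (T : LL ι →L[ℂ] LL ι) (V : ι → ℝ) : ‖HV T V‖ ≤ ‖T‖ + 1 := by
  unfold HV
  refine (norm_add_le _ _).trans ?_
  have := Mw_norm (1 : ℝ) V
  rw [abs_one] at this
  linarith

theorem HV_tendsto {α : Type*} {F : Filter α} (T : LL ι →L[ℂ] LL ι) (w : α → ι → ℝ) (w0 : ι → ℝ)
    (h : ∀ x, Tendsto (fun k => w k x) F (𝓝 (w0 x))) (u : LL ι) :
    Tendsto (fun k => HV T (w k) u) F (𝓝 (HV T w0 u)) := by
  unfold HV
  simp only [ContinuousLinearMap.add_apply]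
  exact (tendsto_const_nhds).add (Mw_tendsto 1 w w0 h u)

theorem rz_sub {X : Type} [NormedAddCommGroup X] [InnerProductSpace ℂ X] [CompleteSpace X]
    (A : X →L[ℂ] X) (hA : IsSelfAdjoint A) (A' : X →L[ℂ] X) (hA' : IsSelfAdjoint A') (z : ℂ)
    (hz : z.im ≠ 0) (u : X) : Rz A z u - Rz A' z u = Rz A z (A' (Rz A' z u) - A (Rz A' z u)) := by
  apply rz_uniq A hA z hz
  have h1 := rz_eq A hA z hz u
  have h2 := rz_eq A' hA' z hz u
  rw [map_sub, smul_sub]
  have h4 : A' (Rz A' z u) = u + z • Rz A' z u := sub_eq_iff_eq_add.1 h2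
  rw [h4]
  have h5 : A (Rz A z u) = u + z • Rz A z u := sub_eq_iff_eq_add.1 h1
  rw [h5]
  abel

theorem Rz_tendsto {α : Type*} {F : Filter α} (T : LL ι →L[ℂ] LL ι) (hT : IsSelfAdjoint T)
    (w : α → ι → ℝ) (w0 : ι → ℝ) (h : ∀ x, Tendsto (fun k => w k x) F (𝓝 (w0 x))) (z : ℂ)
    (hz : z.im ≠ 0) (u : LL ι) :
    Tendsto (fun k => Rz (HV T (w k)) z u) F (𝓝 (Rz (HV T w0) z u)) := by
  rw [tendsto_iff_norm_sub_tendsto_zero]
  have h1 := HV_tendsto T w w0 h (Rz (HV T w0) z u)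
  rw [tendsto_iff_norm_sub_tendsto_zero] at h1
  have h2 := h1.div_const |z.im|
  rw [zero_div] at h2
  refine squeeze_zero (fun k => norm_nonneg _) (fun k => ?_) h2
  rw [rz_sub _ (HV_sa T hT _) _ (HV_sa T hT _) z hz u]
  refine (rz_norm _ (HV_sa T hT _) z hz _).trans (le_of_eq ?_)
  rw [norm_sub_rev]

theorem Gr_cont (T : LL ι →L[ℂ] LL ι) (hT : IsSelfAdjoint T) (z : ℂ) (hz : z.im ≠ 0) (x y : ι) :
    Continuous fun V : ι → ℝ => Gr (HV T V) z x y := by
  rw [continuous_iff_continuousAt]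
  intro V0
  unfold ContinuousAt Gr
  simp only [← ev_apply x]
  exact ((ev x).continuous.tendsto _).comp
    (Rz_tendsto T hT (fun V => V) V0 (fun a => (continuous_apply a).tendsto V0) z hz (dv y))

theorem Gr_meas [Countable ι] {Ω : Type} [MeasurableSpace Ω] (T : LL ι →L[ℂ] LL ι)
    (hT : IsSelfAdjoint T) (V : Ω → ι → ℝ) (hV : Measurable V) (z : ℂ) (hz : z.im ≠ 0) (x y : ι) :
    Measurable fun ω => Gr (HV T (V ω)) z x y :=
  (Gr_cont T hT z hz x y).measurable.comp hV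

theorem Gr_contE (T : LL ι →L[ℂ] LL ι) (hT : IsSelfAdjoint T) (V : ι → ℝ) (k : ℕ) (x y : ι) :
    Continuous fun E : ℝ => Gr (HV T V) (zk E k) x y := by
  rw [continuous_iff_continuousAt]
  intro E0
  unfold ContinuousAt
  rw [tendsto_iff_norm_sub_tendsto_zero]
  have h1 : Tendsto (fun E : ℝ => |E - E0| * ‖Rz (HV T V) (zk E0 k) (dv y)‖ / ep k) (𝓝 E0)
      (𝓝 0) := by
    have h2 : Continuous fun E : ℝ => |E - E0| * ‖Rz (HV T V) (zk E0 k) (dv y)‖ / ep k := by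
      fun_prop
    have h4 := h2.tendsto E0
    simpa using h4
  refine squeeze_zero (fun E => norm_nonneg _) (fun E => ?_) h1
  unfold Gr
  have h2 := rz_two (HV T V) (HV_sa T hT _) (zk E k) (zk E0 k) (zk_im_pos E k) (zk_im_pos E0 k)
    (dv y)
  rw [zk_sub, zk_im] at h2
  exact (ll_coord
    (Rz (HV T V) (zk E k) (dv y) - Rz (HV T V) (zk E0 k) (dv y)) x).trans h2

theorem Gr_im (T : LL ι →L[ℂ] LL ι) (hT : IsSelfAdjoint T) (V : ι → ℝ) (z : ℂ) (hz : z.im ≠ 0)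
    (x : ι) : (Gr (HV T V) z x x).im = z.im * ‖Rz (HV T V) z (dv x)‖ ^ 2 := by
  have h : (inner ℂ (dv x) (Rz (HV T V) z (dv x))).im =
      z.im * ‖Rz (HV T V) z (dv x)‖ ^ 2 :=
    Pool.Agent.H12R2.And.im_inner (HV_sa T hT V) hz (dv x)
  rw [inner_dv] at h
  exact h

/-- the constant in the lower bound of the Green function -/
noncomputable def cL (N : ℝ) (z : ℂ) : ℝ := z.im / (N + 1 + ‖z‖) ^ 2

theorem norm_z_pos {z : ℂ} (hz : 0 < z.im) : 0 < ‖z‖ :=
  hz.trans_le (Complex.im_le_norm z)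

theorem cL_pos (N : ℝ) (hN : 0 ≤ N) {z : ℂ} (hz : 0 < z.im) : 0 < cL N z := by
  unfold cL
  have := norm_z_pos hz
  positivity

theorem Gr_im_lower (T : LL ι →L[ℂ] LL ι) (hT : IsSelfAdjoint T) (V : ι → ℝ) (z : ℂ)
    (hz : 0 < z.im) (x : ι) : cL ‖T‖ z ≤ (Gr (HV T V) z x x).im := by
  rw [Gr_im T hT V z hz.ne' x]
  have h1 := rz_eq _ (HV_sa T hT V) z hz.ne' (dv x)
  have h2 : 1 ≤ (‖T‖ + 1 + ‖z‖) * ‖Rz (HV T V) z (dv x)‖ := by
    rw [← norm_dv x]
    conv_lhs => rw [← h1]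
    refine (norm_sub_le _ _).trans ?_
    rw [norm_dv, add_mul, norm_smul]
    gcongr
    refine ((HV T V).le_opNorm _).trans ?_
    gcongr
    exact HV_norm T V
  have h3 : 0 < ‖T‖ + 1 + ‖z‖ := by
    have := norm_z_pos hz
    positivity
  unfold cL
  rw [div_eq_mul_one_div]
  have h4 : 1 / (‖T‖ + 1 + ‖z‖) ^ 2 ≤ ‖Rz (HV T V) z (dv x)‖ ^ 2 := by
    rw [div_le_iff₀ (by positivity)]
    calc (1 : ℝ) = 1 ^ 2 := by norm_num
      _ ≤ ((‖T‖ + 1 + ‖z‖) * ‖Rz (HV T V) z (dv x)‖) ^ 2 := by gcongr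
      _ = _ := by ring
  gcongr

theorem Gr_im_pos (T : LL ι →L[ℂ] LL ι) (hT : IsSelfAdjoint T) (V : ι → ℝ) (z : ℂ)
    (hz : 0 < z.im) (x : ι) : 0 < (Gr (HV T V) z x x).im :=
  (cL_pos _ (norm_nonneg _) hz).trans_le (Gr_im_lower T hT V z hz x)

theorem Gr_le (T : LL ι →L[ℂ] LL ι) (hT : IsSelfAdjoint T) (V : ι → ℝ) (z : ℂ)
    (hz : 0 < z.im) (x y : ι) : ‖Gr (HV T V) z x y‖ ≤ 1 / z.im := by
  unfold Gr
  refine (ll_coord _ x).trans ?_
  have h := rz_norm _ (HV_sa T hT V) z hz.ne' (dv y)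
  rwa [norm_dv, abs_of_pos hz] at h

theorem qk_im (T : LL ι →L[ℂ] LL ι) (hT : IsSelfAdjoint T) (V : ι → ℝ) (E : ℝ) (k : ℕ) (x : ι) :
    qk (HV T V) E k (dv x) ^ 2 = (Gr (HV T V) (zk E k) x x).im := by
  rw [qk_sq _ (HV_sa T hT _)]
  unfold Fk Gr
  rw [inner_dv]

/-- the quantity -/
noncomputable def qh (T : LL ι →L[ℂ] LL ι) (g : ℂ → ℂ) (V : ι → ℝ) (k : ℕ) (x : ι) (E : ℝ) :
    ENNReal :=
  ENNReal.ofReal (hu (Gr (HV T V) (zk E k) x x) (g (zk E k)) ^ 2)

theorem gk_cont (g : ℂ → ℂ) (hg : ContinuousOn g {z | 0 < z.im}) (k : ℕ) :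
    Continuous fun E : ℝ => g (zk E k) := by
  have h := hg.comp_continuous (zk_cont k) (fun E => zk_im_pos E k)
  exact h

theorem joint [Countable ι] {Ω : Type} [MeasurableSpace Ω] (T : LL ι →L[ℂ] LL ι)
    (hT : IsSelfAdjoint T) (g : ℂ → ℂ) (hg : ContinuousOn g {z | 0 < z.im}) (V : Ω → ι → ℝ)
    (hV : Measurable V) (k : ℕ) (x : ι) :
    Measurable (Function.uncurry fun (E : ℝ) (ω : Ω) => qh T g (V ω) k x E) := by
  have h1 : Measurable (Function.uncurry fun (E : ℝ) (ω : Ω) =>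
      Gr (HV T (V ω)) (zk E k) x x) :=
    measurable_uncurry_of_continuous_of_measurable (fun ω => Gr_contE T hT (V ω) k x x)
      (fun E => Gr_meas T hT V hV (zk E k) (zk_im_pos E k).ne' x x)
  have h2 : Measurable fun p : ℝ × Ω => g (zk p.1 k) :=
    (gk_cont g hg k).measurable.comp measurable_fst
  have h3 : Measurable fun p : ℝ × Ω =>
      hu (Gr (HV T (V p.2)) (zk p.1 k) x x) (g (zk p.1 k)) := by
    unfold hu
    have h4 : Measurable fun p : ℝ × Ω => Gr (HV T (V p.2)) (zk p.1 k) x x := h1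
    exact ((h4.sub h2).norm.pow_const 2).div ((Complex.measurable_im.comp h4).mul
      (Complex.measurable_im.comp h2))
  exact (h3.pow_const 2).ennreal_ofReal

/-- upper bound -/
theorem det_ac (T : LL ι →L[ℂ] LL ι) (hT : IsSelfAdjoint T) (g : ℂ → ℂ) (V : ι → ℝ)
    (α β c C0 : ℝ) (hc : 0 < c)
    (hb : ∀ E ∈ Set.Ioo α β, ∀ k, c ≤ (g (zk E k)).im ∧ ‖g (zk E k)‖ ≤ C0)
    (h : ∀ s : Finset ι, liminf (fun k => ∫⁻ E in Set.Ioo α β, ∑ v ∈ s, qh T g V k v E)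
      atTop < ∞) (φ : LL ι) (m : Measure ℝ) (hm : SpM (HV T V) φ m) (A : Set ℝ)
    (hA : A ⊆ Set.Ioo α β) (h0 : volume A = 0) : m A = 0 := by
  refine all_vec (HV T V) (HV_sa T hT _) α β (fun s => ?_) φ m hm A hA h0
  obtain ⟨C, hC1, hC2⟩ := exists_between (h s)
  have hfreq := frequently_lt_of_liminf_lt (by isBoundedDefault) hC1
  obtain ⟨K, hK⟩ : ∃ K, K = |C0| + 1 := ⟨_, rfl⟩
  have hK0 : 0 < K := by rw [hK]; positivity
  refine ⟨ENNReal.ofReal (2 * K ^ 2) * C + ENNReal.ofReal (8 * K ^ 2) * volume (Set.Ioo α β),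
    ENNReal.add_ne_top.2 ⟨ENNReal.mul_ne_top ENNReal.ofReal_ne_top hC2.ne,
      ENNReal.mul_ne_top ENNReal.ofReal_ne_top (by simp)⟩, hfreq.mono fun k hk v hv => ?_⟩
  have hpt : ∀ E ∈ Set.Ioo α β, ENNReal.ofReal (qk (HV T V) E k (dv v) ^ 2) ^ 2 ≤
      ENNReal.ofReal (2 * K ^ 2) * qh T g V k v E + ENNReal.ofReal (8 * K ^ 2) := by
    intro E hE
    have g1 := Gr_im_pos T hT V (zk E k) (zk_im_pos E k) v
    have g2 : 0 < (g (zk E k)).im := hc.trans_le (hb E hE k).1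
    have g3 := hu_im g1 g2
    have g4 := hu_nonneg g1 g2
    have g5 : (g (zk E k)).im ≤ K := by
      rw [hK]
      have := (hb E hE k).2
      linarith [Complex.im_le_norm (g (zk E k)), le_abs_self C0]
    rw [qk_im T hT, ← ENNReal.ofReal_pow g1.le]
    unfold qh
    rw [← ENNReal.ofReal_mul (by positivity), ← ENNReal.ofReal_add (by positivity) (by positivity)]
    apply ENNReal.ofReal_le_ofReal
    obtain ⟨a, ha⟩ : ∃ a, a = hu (Gr (HV T V) (zk E k) v v) (g (zk E k)) := ⟨_, rfl⟩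
    rw [← ha] at g3 g4 ⊢
    have g6 : (Gr (HV T V) (zk E k) v v).im ≤ (a + 2) * K := by
      refine g3.trans ?_
      gcongr
    calc (Gr (HV T V) (zk E k) v v).im ^ 2 ≤ ((a + 2) * K) ^ 2 := by gcongr
      _ ≤ 2 * K ^ 2 * a ^ 2 + 8 * K ^ 2 := by nlinarith [sq_nonneg ((a - 2) * K)]
  calc ∫⁻ E in Set.Ioo α β, ENNReal.ofReal (qk (HV T V) E k (dv v) ^ 2) ^ 2 ≤
      ∫⁻ E in Set.Ioo α β, (ENNReal.ofReal (2 * K ^ 2) * qh T g V k v E +
        ENNReal.ofReal (8 * K ^ 2)) := setLIntegral_mono' measurableSet_Ioo hpt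
    _ = ENNReal.ofReal (2 * K ^ 2) * (∫⁻ E in Set.Ioo α β, qh T g V k v E) +
        ENNReal.ofReal (8 * K ^ 2) * volume (Set.Ioo α β) := by
        rw [lintegral_add_right _ measurable_const, lintegral_const_mul' _ _ ENNReal.ofReal_ne_top,
          lintegral_const, Measure.restrict_apply_univ]
    _ ≤ _ := by
        gcongr
        refine le_trans (lintegral_mono fun E => ?_) hk.le
        exact Finset.single_le_sum (f := fun v => qh T g V k v E) (fun _ _ => zero_le) hv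

/-- lower bound -/
theorem det_pos (T : LL ι →L[ℂ] LL ι) (hT : IsSelfAdjoint T) (g : ℂ → ℂ) (V : ι → ℝ)
    (α β m0 : ℝ) (hm0 : 0 < m0) (k0 : ℕ)
    (hlow : ∀ E ∈ Set.Ioo α β, ∀ k, k0 ≤ k → m0 ≤ (g (zk E k)).im) (v : ι)
    (hmeas : ∀ k, Measurable (qh T g V k v))
    (h : liminf (fun k => ∫⁻ E in Set.Ioo α β, qh T g V k v E) atTop < ∞)
    (m : Measure ℝ) (hm : SpM (HV T V) (dv v) m) (A : Set ℝ) (hA : A ⊆ Set.Ioo α β)
    (hAm : MeasurableSet A) (h0 : m A = 0) : volume A = 0 := by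
  haveI := hm.1
  have h1 : ∫⁻ E in Set.Ioo α β, liminf (fun k => qh T g V k v E) atTop < ∞ :=
    (lintegral_liminf_le hmeas).trans_lt h
  have h2 : ∀ᵐ E ∂(volume.restrict (Set.Ioo α β)), liminf (fun k => qh T g V k v E) atTop < ∞ :=
    ae_lt_top (Measurable.liminf hmeas) h1.ne
  have h3 : ∀ᵐ E ∂(volume.restrict (Set.Ioo α β)), m.rnDeriv volume E ≠ 0 := by
    filter_upwards [h2, ae_restrict_of_ae (poisson_ae m), ae_restrict_mem measurableSet_Ioo]
      with E e1 e2 e3 hzero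
    obtain ⟨C, hC1, hC2⟩ := exists_between e1
    have hfreq := frequently_lt_of_liminf_lt (by isBoundedDefault) hC1
    rw [hzero, ENNReal.toReal_zero, mul_zero] at e2
    have hδ : 0 < m0 / (Real.sqrt C.toReal + 2) := by positivity
    have e4 := e2.eventually_lt_const hδ
    obtain ⟨k, ⟨k1, k2⟩, k3⟩ := (hfreq.and_eventually (e4.and (eventually_ge_atTop k0))).exists.imp
      fun k hk => (⟨⟨hk.1, hk.2.1⟩, hk.2.2⟩ : (_ ∧ _) ∧ _)
    have g1 := Gr_im_pos T hT V (zk E k) (zk_im_pos E k) v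
    have g2 : 0 < (g (zk E k)).im := hm0.trans_le (hlow E e3 k k3)
    have g3 := hu_im g2 g1
    have g4 := hu_nonneg g1 g2
    rw [hu_comm] at g3
    have g5 := qk_po (HV T V) (HV_sa T hT _) (dv v) m hm E k
    rw [qk_im T hT] at g5
    unfold qh at k1
    obtain ⟨a, ha⟩ : ∃ a, a = hu (Gr (HV T V) (zk E k) v v) (g (zk E k)) := ⟨_, rfl⟩
    rw [← ha] at g3 g4 k1
    have g6 : a ^ 2 < C.toReal := by
      rw [← ENNReal.ofReal_lt_ofReal_iff_of_nonneg (sq_nonneg a), ENNReal.ofReal_toReal hC2.ne]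
      exact k1
    have g7 : a ≤ Real.sqrt C.toReal := Real.le_sqrt_of_sq_le g6.le
    have g8 := hlow E e3 k k3
    have g9 : (Gr (HV T V) (zk E k) v v).im < m0 / (Real.sqrt C.toReal + 2) := by
      rw [g5]
      exact k2
    rw [lt_div_iff₀ (by positivity)] at g9
    nlinarith
  have h4 : ∫⁻ E in A, m.rnDeriv volume E = 0 :=
    le_antisymm ((Measure.setLIntegral_rnDeriv_le A).trans h0.le) zero_le
  have h5 : ∀ᵐ E ∂(volume.restrict A), m.rnDeriv volume E = 0 := by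
    have := (lintegral_eq_zero_iff (Measure.measurable_rnDeriv m volume)).1 h4
    filter_upwards [this] with E hE
    exact hE
  have h6 : ∀ᵐ E ∂(volume.restrict A), m.rnDeriv volume E ≠ 0 :=
    ae_restrict_of_ae_restrict_of_subset hA h3
  have h7 : ∀ᵐ E ∂(volume.restrict A), False := by
    filter_upwards [h5, h6] with E e1 e2
    exact e2 e1
  rw [Filter.eventually_false_iff_eq_bot, ae_eq_bot, Measure.restrict_eq_zero] at h7
  exact h7

end

/-- **B5** -/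
theorem ac : Pool.Agent.H987.Z.S_ac := by
  intro ι Ω hι hΩ P hP T V g α β c C e hT hV hg hc hbd hmom
  haveI := hι
  have hj : ∀ (k : ℕ) (v : ι), Measurable (Function.uncurry fun (E : ℝ) (ω : Ω) =>
      qh T g (V ω) k v E) := fun k v => joint T hT g hg V hV k v
  have hbd' : ∀ E ∈ Set.Ioo α β, ∀ k, c ≤ (g (zk E k)).im ∧ ‖g (zk E k)‖ ≤ C := by
    intro E hE k
    refine hbd (zk E k) ?_ ?_ (zk_im_pos E k) (zk_im_le E k)
    · rw [zk_re]; exact hE.1
    · rw [zk_re]; exact hE.2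
  have hq : ∀ (k : ℕ) (v : ι) (E : ℝ), E ∈ Set.Ioo α β →
      ∫⁻ ω, qh T g (V ω) k v E ∂P ≤ ENNReal.ofReal e := by
    intro k v E hE
    have h1 := hmom (zk E k) (by rw [zk_re]; exact hE.1) (by rw [zk_re]; exact hE.2)
      (zk_im_pos E k) (zk_im_le E k) v
    unfold qh
    have hG := Gr_meas T hT V hV (zk E k) (zk_im_pos E k).ne' v v
    have hmeas : Measurable fun ω => hu (Gr (HV T (V ω)) (zk E k) v v) (g (zk E k)) ^ 2 :=
      ((hu_meas _).comp hG).pow_const 2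
    have g2 : 0 < (g (zk E k)).im := hc.trans_le (hbd' E hE k).1
    have hcp := cL_pos ‖T‖ (norm_nonneg _) (zk_im_pos E k)
    have hint : Integrable (fun ω => hu (Gr (HV T (V ω)) (zk E k) v v) (g (zk E k)) ^ 2) P := by
      refine Integrable.of_bound hmeas.aestronglyMeasurable
        (((1 / (zk E k).im + ‖g (zk E k)‖) ^ 2 / (cL ‖T‖ (zk E k) * (g (zk E k)).im)) ^ 2)
        (Eventually.of_forall fun ω => ?_)
      have g1 := Gr_im_pos T hT (V ω) (zk E k) (zk_im_pos E k) v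
      have g3 := hu_nonneg g1 g2
      have g4 := Gr_im_lower T hT (V ω) (zk E k) (zk_im_pos E k) v
      have g5 := Gr_le T hT (V ω) (zk E k) (zk_im_pos E k) v v
      rw [Real.norm_of_nonneg (by positivity)]
      refine pow_le_pow_left₀ g3 ?_ 2
      unfold hu
      gcongr
      exact (norm_sub_le _ _).trans (by gcongr)
    rw [← ofReal_integral_eq_lintegral_ofReal hint (Eventually.of_forall fun ω => sq_nonneg _)]
    exact ENNReal.ofReal_le_ofReal h1
  have hfin : ∀ s : Finset ι, ∀ᵐ ω ∂P,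
      liminf (fun k => ∫⁻ E in Set.Ioo α β, ∑ v ∈ s, qh T g (V ω) k v E) atTop < ∞ := by
    intro s
    refine fatou_om P (fun k E ω => ∑ v ∈ s, qh T g (V ω) k v E)
      (fun k => Finset.measurable_fun_sum s fun v _ => hj k v)
      (Set.Ioo α β) measurableSet_Ioo (by simp) (s.card * ENNReal.ofReal e)
      (ENNReal.mul_ne_top (ENNReal.natCast_ne_top _) ENNReal.ofReal_ne_top) 0
      (fun k _ E hE => ?_)
    rw [lintegral_finset_sum s fun v _ => Measurable.of_uncurry_left (hj k v)]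
    refine (Finset.sum_le_sum fun v _ => hq k v E hE).trans ?_
    rw [Finset.sum_const, nsmul_eq_mul]
  have hall : ∀ᵐ ω ∂P, ∀ s : Finset ι,
      liminf (fun k => ∫⁻ E in Set.Ioo α β, ∑ v ∈ s, qh T g (V ω) k v E) atTop < ∞ :=
    ae_all_iff.2 hfin
  filter_upwards [hall] with ω hω
  refine ⟨fun φ m hm A hA hv => ?_, fun x m hm A hA hAm hv => ?_⟩
  · exact det_ac T hT g (V ω) α β c C hc hbd' hω φ m hm A hA hv
  · have hs := hω {x}
    simp only [Finset.sum_singleton] at hs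
    exact det_pos T hT g (V ω) α β c hc 0 (fun E hE k _ => (hbd' E hE k).1) x
      (fun k => Measurable.of_uncurry_right (hj k x)) hs m hm A hA hAm hv

end Pool.Agent.H230.Z987
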